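import Mathlib

/-!
Cuts of the digits.
-/

namespace Pool.Agent.Helper84.MP

/-- the initial segment of the digit positions -/
def ini (n k : ℕ) : Finset (Fin n) := Finset.univ.filter fun i : Fin n => (i : ℕ) < k

/-- the matrix `f (u + b ^ i v)` -/
def cut {K : Type*} (b n i : ℕ) (f : ℕ → K) : Matrix (Fin (b ^ i)) (Fin (b ^ (n - i))) K :=
  Matrix.of fun u v => f (u + b ^ i * v)

/-- For each cut of the digits some matrix over some field with rank at most `s` is not zero exactly
at the pairs `(u, v)` with `u + b ^ i v ∈ S`. -/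
def CutRank (b n : ℕ) (S : Finset ℕ) (s : ℕ) : Prop :=
  ∀ i ≤ n, ∃ (F : Type) (_ : Field F) (M : Matrix (Fin (b ^ i)) (Fin (b ^ (n - i))) F),
    M.rank ≤ s ∧ ∀ u v, M u v ≠ 0 ↔ (u : ℕ) + b ^ i * v ∈ S

end Pool.Agent.Helper84.MP
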