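import Mathlib

/-!
Columns of a function on words.
-/

namespace Pool.Agent.Helper84.MP

variable {ι β K : Type*} [Fintype ι] [DecidableEq ι] [Fintype β] [DecidableEq β] [Field K]

/-- the column of `w`: the function of the letters in `D` when the letters outside `D` are those
of `w` -/
def col (f : (ι → β) → K) (D : Finset ι) (w : ι → β) : (ι → β) → K := fun u => f (D.piecewise u w)

/-- the rank of the matrix (letters in `D`, letters outside `D`) -/
noncomputable def crk (f : (ι → β) → K) (D : Finset ι) : ℕ :=
  Module.finrank K (Submodule.span K (Set.range (col f D)))

end Pool.Agent.Helper84.MP
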