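import Pool.Agent.Helper84.MP.Bound

/-!
Row rank and column rank.
-/

namespace Pool.Agent.Helper84.MP

open Finset Pool.Agent.Helper84.TN

variable {ι β K : Type*} [Fintype ι] [DecidableEq ι] [Fintype β] [DecidableEq β] [Field K]

theorem crk_eq_rk (f : (ι → β) → K) (D : Finset ι) : crk f D = rk f D := by
  set M : Matrix (ι → β) (ι → β) K := fun u w => f (D.piecewise u w) with hM
  have h1 : crk f D = M.rank := by
    rw [Matrix.rank_eq_finrank_span_cols]
    rfl
  have h2 : rk f D = M.rank := by
    rw [Matrix.rank_eq_finrank_span_row]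
    rfl
  rw [h1, h2]

end Pool.Agent.Helper84.MP
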