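import Pool.Agent.Helper84.MP.Cut
import Pool.Agent.Helper84.MP.RowCol
import Pool.Agent.Helper84.TN.Supp

/-!
Matrices `f (u + b ^ i v)` and functions of words.
-/

namespace Pool.Agent.Helper84.MP

open Finset Pool.Agent.Helper84.TN

theorem mem_ini {n k : ℕ} {i : Fin n} : i ∈ ini n k ↔ (i : ℕ) < k := by
  simp [ini]

theorem ini_min (n k : ℕ) : ini n k = ini n (min k n) := by
  ext i
  rw [mem_ini, mem_ini]
  have := i.2
  omega

theorem low_lt {n b : ℕ} (hb : 1 ≤ b) (i : ℕ) (w : Fin n → Fin b) :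
    ∑ t ∈ ini n i, (w t : ℕ) * b ^ (t : ℕ) < b ^ i := by
  obtain ⟨a, rfl⟩ : ∃ a, b = a + 1 := ⟨b - 1, by omega⟩
  have h1 : ∑ t ∈ ini n i, (w t : ℕ) * (a + 1) ^ (t : ℕ) ≤
      ∑ t ∈ range i, a * (a + 1) ^ t := by
    calc ∑ t ∈ ini n i, (w t : ℕ) * (a + 1) ^ (t : ℕ)
        ≤ ∑ t ∈ ini n i, a * (a + 1) ^ (t : ℕ) := by
          refine Finset.sum_le_sum fun t _ => Nat.mul_le_mul_right _ ?_
          have := (w t).2
          omega
      _ = ∑ t ∈ (ini n i).map Fin.valEmbedding, a * (a + 1) ^ t := by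
          rw [Finset.sum_map]
          rfl
      _ ≤ ∑ t ∈ range i, a * (a + 1) ^ t := by
          refine Finset.sum_le_sum_of_subset fun t ht => ?_
          rw [mem_map] at ht
          obtain ⟨t', ht', rfl⟩ := ht
          exact mem_range.2 (mem_ini.1 ht')
  have h2 := geom_sum_mul_add a i
  have h3 : ∑ t ∈ range i, a * (a + 1) ^ t = (∑ t ∈ range i, (a + 1) ^ t) * a := by
    rw [Finset.sum_mul]
    exact Finset.sum_congr rfl fun t _ => mul_comm _ _
  omega

theorem value_split {n b : ℕ} (i : ℕ) (w : Fin n → Fin b) :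
    value w = ∑ t ∈ ini n i, (w t : ℕ) * b ^ (t : ℕ) +
      b ^ i * ∑ t ∈ (ini n i)ᶜ, (w t : ℕ) * b ^ ((t : ℕ) - i) := by
  unfold value
  rw [← Finset.sum_add_sum_compl (ini n i), Finset.mul_sum]
  congr 1
  refine Finset.sum_congr rfl fun t ht => ?_
  rw [mem_compl, mem_ini, not_lt] at ht
  calc (w t : ℕ) * b ^ (t : ℕ) = (w t : ℕ) * b ^ (i + ((t : ℕ) - i)) := by
        rw [Nat.add_sub_cancel' ht]
    _ = b ^ i * ((w t : ℕ) * b ^ ((t : ℕ) - i)) := by
        rw [pow_add]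
        ring

theorem value_mod {n b : ℕ} (hb : 1 ≤ b) (i : ℕ) (w : Fin n → Fin b) :
    value w % b ^ i = ∑ t ∈ ini n i, (w t : ℕ) * b ^ (t : ℕ) := by
  rw [value_split i w, Nat.add_mul_mod_self_left, Nat.mod_eq_of_lt (low_lt hb i w)]

theorem value_div {n b : ℕ} (hb : 1 ≤ b) (i : ℕ) (w : Fin n → Fin b) :
    value w / b ^ i = ∑ t ∈ (ini n i)ᶜ, (w t : ℕ) * b ^ ((t : ℕ) - i) := by
  rw [value_split i w, Nat.add_mul_div_left _ _ (Nat.pow_pos hb),
    Nat.div_eq_of_lt (low_lt hb i w), zero_add]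

theorem value_lt' {n b : ℕ} (hb : 1 ≤ b) (w : Fin n → Fin b) : value w < b ^ n := by
  have h1 := value_split n w
  have h2 := low_lt hb n w
  have h3 : (ini n n)ᶜ = ∅ := by
    ext i
    rw [mem_compl, mem_ini]
    have := i.2
    simp
  rw [h3, Finset.sum_empty, Nat.mul_zero, Nat.add_zero] at h1
  omega

theorem mod_piecewise {n b : ℕ} (hb : 1 ≤ b) (i : ℕ) (u w : Fin n → Fin b) :
    value ((ini n i).piecewise u w) % b ^ i = value u % b ^ i := by
  rw [value_mod hb, value_mod hb]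
  exact Finset.sum_congr rfl fun t ht => by rw [Finset.piecewise_eq_of_mem _ _ _ ht]

theorem div_piecewise {n b : ℕ} (hb : 1 ≤ b) (i : ℕ) (u w : Fin n → Fin b) :
    value ((ini n i).piecewise u w) / b ^ i = value w / b ^ i := by
  rw [value_div hb, value_div hb]
  refine Finset.sum_congr rfl fun t ht => ?_
  rw [mem_compl] at ht
  rw [Finset.piecewise_eq_of_notMem _ _ _ ht]

section

variable {F : Type*} [Field F] {n b i : ℕ}

/-- the low digits -/
def lo (hb : 1 ≤ b) (i : ℕ) (w : Fin n → Fin b) : Fin (b ^ i) :=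
  ⟨value w % b ^ i, Nat.mod_lt _ (Nat.pow_pos hb)⟩

/-- the high digits -/
def hi (hb : 1 ≤ b) (hi : i ≤ n) (w : Fin n → Fin b) : Fin (b ^ (n - i)) :=
  ⟨value w / b ^ i, by
    rw [Nat.div_lt_iff_lt_mul (Nat.pow_pos hb), ← pow_add, Nat.sub_add_cancel hi]
    exact value_lt' hb w⟩

theorem crk_matrix (hb : 1 ≤ b) (hin : i ≤ n) (M : Matrix (Fin (b ^ i)) (Fin (b ^ (n - i))) F) :
    crk (fun w : Fin n → Fin b => M (lo hb i w) (hi hb hin w)) (ini n i) ≤ M.rank := by
  rw [Matrix.rank_eq_finrank_span_cols]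
  unfold crk
  set L : (Fin (b ^ i) → F) →ₗ[F] ((Fin n → Fin b) → F) :=
    LinearMap.funLeft F F (fun u => lo hb i u) with hL
  have h1 : Submodule.span F (Set.range (col (fun w : Fin n → Fin b => M (lo hb i w) (hi hb hin w))
      (ini n i))) ≤ (Submodule.span F (Set.range M.col)).map L := by
    rw [Submodule.span_le]
    rintro _ ⟨w, rfl⟩
    refine ⟨M.col (hi hb hin w), Submodule.subset_span ⟨_, rfl⟩, ?_⟩
    funext u
    rw [hL]
    change M (lo hb i u) (hi hb hin w) = M (lo hb i ((ini n i).piecewise u w))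
      (hi hb hin ((ini n i).piecewise u w))
    have e1 : lo hb i ((ini n i).piecewise u w) = lo hb i u :=
      Fin.ext (mod_piecewise hb i u w)
    have e2 : hi hb hin ((ini n i).piecewise u w) = hi hb hin w :=
      Fin.ext (div_piecewise hb i u w)
    rw [e1, e2]
  exact (Submodule.finrank_mono h1).trans (Submodule.finrank_map_le _ _)

end

/-- T2a -/
theorem crk_le_cut {K : Type*} [Field K] {b n s : ℕ} (hb : 1 ≤ b) (f : ℕ → K)
    (h : ∀ i ≤ n, (cut b n i f).rank ≤ s) (k : ℕ) :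
    crk (fun w : Fin n → Fin b => f (value w)) (ini n k) ≤ s := by
  rw [ini_min]
  have hin : min k n ≤ n := min_le_right _ _
  refine le_trans (le_of_eq ?_) ((crk_matrix hb hin (cut b n (min k n) f)).trans (h _ hin))
  congr 1
  funext w
  change f (value w) = f (value w % b ^ min k n + b ^ min k n * (value w / b ^ min k n))
  rw [Nat.mod_add_div]

/-- T2b -/
theorem suppRank_of_cutRank {b n s : ℕ} (hb : 1 ≤ b) {S : Finset ℕ} (h : CutRank b n S s) (k : ℕ) :
    SuppRank (Finset.univ.filter fun w : Fin n → Fin b => value w ∈ S) (ini n k) s := by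
  rw [ini_min]
  have hin : min k n ≤ n := min_le_right _ _
  obtain ⟨F, hF, M, hM, hS⟩ := h _ hin
  refine ⟨F, hF, fun w => M (lo hb (min k n) w) (hi hb hin w), fun w => ?_, ?_⟩
  · rw [hS, mem_filter]
    change value w % b ^ min k n + b ^ min k n * (value w / b ^ min k n) ∈ S ↔ _
    rw [Nat.mod_add_div]
    simp
  · rw [← crk_eq_rk]
    exact (crk_matrix hb hin M).trans hM

end Pool.Agent.Helper84.MP
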