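import Mathlib
import Pool.Agent.Helper84.MP.Bridge
import Pool.Agent.Helper12.MP.Reg2
import Pool.Agent.Helper1.MP.Reg2
import Pool.Agent.Helper1.MP.Bdd2
import Pool.Agent.Helper29.MP.RegBdd
import Pool.Agent.Helper29.MP.Sharp3
import Pool.Agent.Helper12.MP.Back
import Pool.Agent.Helper79.MP.Rate
import Pool.Agent.Helper1.LR.LawCut

/-!
MP_12a1af_nt (Erdős–Turán): regular sequences on sets with small representation function.
-/

namespace Pool.Agent.Helper84.MP.V6

open Matrix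
open Pool.Agent.Helper84.TN (value value_injective size)
open Pool.Agent.Helper84.MP
open Pool.Agent.Helper82.CF (rep)

/-- `f` is a `b`-regular sequence (Allouche and Shallit) of dimension at most `s`: `f c` is the
product of the matrices `M d` of the base `b` digits `d` of `c`, the lowest digit first, between two
vectors; `c` may be written with additional zeros. -/
def IsRegular {K : Type} [Field K] (b s : ℕ) (f : ℕ → K) : Prop :=
  ∃ (M : Fin b → Matrix (Fin s) (Fin s) K) (u v : Fin s → K), ∀ (n : ℕ) (w : Fin n → Fin b),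
    f (value w) = u ⬝ᵥ (List.ofFn fun i => M (w i)).prod.mulVec v

/-- the same for functions of two variables, with a matrix for each pair of digits -/
def IsRegular2 {K : Type} [Field K] (b s : ℕ) (f : ℕ → ℕ → K) : Prop :=
  ∃ (M : Fin b → Fin b → Matrix (Fin s) (Fin s) K) (u v : Fin s → K),
    ∀ (n : ℕ) (w w' : Fin n → Fin b), f (value w) (value w') =
      u ⬝ᵥ (List.ofFn fun i => M (w i) (w' i)).prod.mulVec v

theorem toMprod {K : Type} [Field K] {b s : ℕ} {f : ℕ → K} (h : IsRegular b s f) :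
    Helper12.MP.IsRegular b s f := by
  obtain ⟨M, u, v, hf⟩ := h
  refine ⟨M, u, v, fun n w => ?_⟩
  rw [hf]
  congr 2
  induction n with
  | zero => simp [mprod]
  | succ n ih =>
    rw [List.ofFn_succ', List.concat_eq_append, List.prod_append, List.prod_singleton, mprod,
      ih (fun i => w i.castSucc)]

theorem ofMprod {K : Type} [Field K] {b s : ℕ} {f : ℕ → K}
    (h : Helper12.MP.IsRegular b s f) : IsRegular b s f := by
  obtain ⟨M, u, v, hf⟩ := h
  refine ⟨M, u, v, fun n w => ?_⟩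
  rw [hf]
  congr 2
  induction n with
  | zero => simp [mprod]
  | succ n ih =>
    rw [List.ofFn_succ', List.concat_eq_append, List.prod_append, List.prod_singleton, mprod,
      ih (fun i => w i.castSucc)]

/-- `rep A m` is the number of ordered pairs `(a, a') ∈ A × A` with `a + a' = m`; `value w` is the
number with the base `b` digits `w 0, w 1, ...`; `cut b n i f` is the matrix `f (u + b ^ i v)`,
`u < b ^ i`, `v < b ^ (n - i)`; `CutRank b n S s`: for each `i ≤ n` some matrix over some field of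
rank at most `s` is not zero exactly at the `(u, v)` with `u + b ^ i v ∈ S`. -/
theorem result :
    (∀ (K : Type) [Field K] (A : Set ℕ) (b s : ℕ) (f : ℕ → K), 2 ≤ b → IsRegular b s f →
      (∀ c, f c ≠ 0 → c ∈ A) →
      (∀ δ : ℝ, 0 < δ → (∀ X : ℕ, ∃ x ≥ X, (x : ℝ) ^ δ ≤ {c | c < x ∧ f c ≠ 0}.ncard) →
        ∀ X : ℕ, ∃ m ≥ X, (m : ℝ) ^ (δ ^ 2 / (420 * (s + Real.log b))) ≤ rep A m) ∧
      ∀ k : ℕ, (∀ m, rep A m < 2 ^ (k + 1)) →
        ∃ C : ℝ, ∀ x : ℕ, 2 ≤ x → ({c | c < x ∧ f c ≠ 0}.ncard : ℝ) ≤ C * Real.log x ^ k) ∧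
    (∀ k : ℕ, 1 ≤ k → ∃ f : ℕ → ℚ, IsRegular 3 (k * 2 ^ k) f ∧
      (∀ m, rep {c | f c ≠ 0} m ≤ 2 ^ k) ∧
      ∀ x : ℕ, 3 ^ k ≤ x → Real.log x ^ k ≤ (4 * k) ^ k * ({c | c < x ∧ f c ≠ 0}.ncard : ℝ)) ∧
    (∀ (K : Type) [Field K] (A : Set ℕ) (b s : ℕ) (f : ℕ → ℕ → K), 2 ≤ b → IsRegular2 b s f →
      (∀ c a, f c a ≠ 0 → a ≤ c ∧ a ∈ A ∧ c - a ∈ A) →
      (∀ δ : ℝ, 0 < δ →
        (∀ X : ℕ, ∃ x ≥ X, (x : ℝ) ^ δ ≤ {p : ℕ × ℕ | p.1 < x ∧ f p.1 p.2 ≠ 0}.ncard) →
        ∀ X : ℕ, ∃ m ≥ X, (m : ℝ) ^ (δ ^ 2 / (1680 * (s + 2 * Real.log b))) ≤ rep A m) ∧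
      ∀ k : ℕ, (∀ m, rep A m < 2 ^ (k + 1)) →
        ∃ C : ℝ, ∀ x : ℕ, 2 ≤ x →
          ({p : ℕ × ℕ | p.1 < x ∧ f p.1 p.2 ≠ 0}.ncard : ℝ) ≤ C * Real.log x ^ (2 * k + 1)) ∧
    (∀ (K : Type) [Field K] (A : Set ℕ) (b n s x : ℕ) (f : ℕ → K), 2 ≤ b →
      (∀ i ≤ n, (cut b n i f).rank ≤ s) → (∃ c < b ^ n, f c ≠ 0) →
      (∀ c < b ^ n, f c ≠ 0 → c ∈ A ∧ c ≤ x) →
      ∃ m ≤ 2 * x, Real.log {c | c < b ^ n ∧ f c ≠ 0}.ncard ^ 2 ≤
        70 * (s + Real.log b) * (n * Real.log b) * Real.log (rep A m)) ∧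
    (∀ (A : Set ℕ) (b n s x : ℕ) (S : Finset ℕ), 1 ≤ b → S.Nonempty → S ⊆ Finset.range (b ^ n) →
      CutRank b n S s → (∀ c ∈ S, c ∈ A ∧ c ≤ x) →
      ∃ m ≤ 2 * x, Real.log S.card ≤ 3 * rep A m * Real.log (n * (b + 1) * max s b)) ∧
    ∀ d : ℝ, d < 1 / 2 → ∃ C : ℝ, ∀ n M : ℕ, C ≤ n → 2 ≤ M → M ≤ n →
      ∃ (s : ℕ) (S : Finset ℕ), S ⊆ Finset.range (2 ^ n) ∧ CutRank 2 n S s ∧
        s ≤ Real.exp (C * (n / M * Real.log M + Real.log n ^ 3)) ∧
        (2 : ℝ) ^ (d * n) ≤ S.card ∧ ∀ m, rep S m ≤ M := by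
  classical
  refine ⟨?_, ?_, ?_, ?_, ?_, ?_⟩
  · intro K _ A b s f hb hf hA
    refine ⟨fun δ hδ hbig => Helper12.MP.regular_explicit hb f (toMprod hf) hA hδ hbig,
      fun k hr => ?_⟩
    obtain ⟨C, -, hC⟩ := Helper29.MP.regular_bdd hb f (toMprod hf) hA hr
    exact ⟨C, hC⟩
  · intro k hk
    obtain ⟨f, h1, h2, h3⟩ := Helper29.MP.regular_sharp3 ℚ k hk
    exact ⟨f, ofMprod h1, h2, h3⟩
  · intro K _ A b s f hb hf hA
    refine ⟨fun δ hδ hbig => Helper1.MP.regular_choice hb f hf hA hδ hbig, fun k hr => ?_⟩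
    obtain ⟨C, -, hC⟩ := Helper1.MP.regular_choice_bdd hb f hf hA hr
    exact ⟨C, hC⟩
  · rintro K _ A b n s x f hb hs ⟨c, hc, hfc⟩ hA
    obtain ⟨w, rfl⟩ := Helper12.MP.exists_word hc
    have h1 := mp_bound (A := A) (x := x) hb (fun w : Fin n → Fin b => f (value w))
      (fun k => crk_le_cut (by omega) f hs k) ⟨w, hfc⟩
      (fun w hw => hA _ (Helper12.MP.value_lt w) hw)
    have h2 : {c | c < b ^ n ∧ f c ≠ 0}.ncard = size fun w : Fin n → Fin b => f (value w) := by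
      have e : {c | c < b ^ n ∧ f c ≠ 0} =
          value '' {w : Fin n → Fin b | f (value w) ≠ 0} := by
        ext c
        constructor
        · rintro ⟨h3, h4⟩
          obtain ⟨w, rfl⟩ := Helper12.MP.exists_word h3
          exact ⟨w, h4, rfl⟩
        · rintro ⟨w, h3, rfl⟩
          exact ⟨Helper12.MP.value_lt w, h3⟩
      rw [e, Set.ncard_image_of_injective _ value_injective]
      unfold size
      rw [← Set.ncard_coe_finset]
      congr 1
      ext w
      simp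
    rw [h2]
    exact h1
  · intro A b n s x S hb hne hS hr hA
    set S' : Finset (Fin n → Fin b) := Finset.univ.filter fun w => value w ∈ S with hS'
    have himg : S'.image value = S := by
      ext c
      rw [Finset.mem_image]
      constructor
      · rintro ⟨w, hw, rfl⟩
        rw [hS', Finset.mem_filter] at hw
        exact hw.2
      · intro hc
        obtain ⟨w, rfl⟩ := Helper12.MP.exists_word (Finset.mem_range.1 (hS hc))
        exact ⟨w, by rw [hS', Finset.mem_filter]; exact ⟨Finset.mem_univ _, hc⟩, rfl⟩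
    have hcard : S.card = S'.card := by
      rw [← himg, Finset.card_image_of_injective _ value_injective]
    have hne' : S'.Nonempty := by
      rw [← Finset.image_nonempty (f := value), himg]
      exact hne
    rw [hcard]
    exact Helper79.MP.cut_rate S' hne' (fun k => suppRank_of_cutRank hb hr k) fun w hw => by
      rw [hS', Finset.mem_filter] at hw
      exact hA _ hw.2
  · intro d hd
    obtain ⟨C, -, hC⟩ := Helper1.LR.law_cut d hd
    refine ⟨C, fun n M hn h1 h2 => ?_⟩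
    obtain ⟨s, S, g1, g2, g3, g4⟩ := hC n M hn h1 h2
    refine ⟨s, S.image value, ?_, Helper12.MP.cutRank_of_suppRank (by norm_num) g1, g2, ?_, ?_⟩
    · intro c hc
      rw [Finset.mem_image] at hc
      obtain ⟨w, -, rfl⟩ := hc
      exact Finset.mem_range.2 (Helper12.MP.value_lt w)
    · rwa [Finset.card_image_of_injective _ value_injective]
    · intro m
      have e : ((S.image value : Finset ℕ) : Set ℕ) = {a | ∃ v ∈ S, value v = a} := by
        ext a
        simp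
      rw [e]
      exact g4 m

end Pool.Agent.Helper84.MP.V6
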