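import Pool.Agent.Helper1.MP.Mem

/-!
# Weighted automata with `s` states which read `n` digits
-/

namespace Pool.Agent.Helper84.MP

open Finset Matrix
open Pool.Agent.Helper84.TN (value value_injective rk SuppRank card_le_of_suppRank cube_of_box bd)
open Pool.Agent.Helper82.CF (rep)
open Pool.Agent.Helper12.MP (exists_word value_lt)
open Pool.Agent.Helper1.MP (mpr mpr_zero mpr_succ crk_mpr asym no_cube2 rk_single)

theorem ofFn_mpr {K β : Type*} [Field K] [Fintype β] [DecidableEq β] {s : ℕ}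
    (M : ℕ → β → Matrix (Fin s) (Fin s) K) (n : ℕ) (w : Fin n → β) :
    (List.ofFn fun i : Fin n => M i (w i)).prod = mpr M n w := by
  induction n with
  | zero => simp [mpr_zero]
  | succ n ih =>
    rw [List.ofFn_succ', List.concat_eq_append, List.prod_append, List.prod_singleton, mpr_succ,
      ← ih (fun i => w i.castSucc)]
    rfl

/-- the rank at the cuts is at most the number of states -/
theorem crk_ofFn {K β : Type*} [Field K] [Fintype β] [DecidableEq β] {s n : ℕ}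
    (M : Fin n → β → Matrix (Fin s) (Fin s) K) (u v : Fin s → K) (k : ℕ) :
    crk (fun w : Fin n → β => u ⬝ᵥ (List.ofFn fun i => M i (w i)).prod.mulVec v) (ini n k) ≤ s := by
  set M' : ℕ → β → Matrix (Fin s) (Fin s) K := fun i d => if h : i < n then M ⟨i, h⟩ d else 1
    with hM'
  have h : ∀ w : Fin n → β, (List.ofFn fun i => M i (w i)).prod = mpr M' n w := by
    intro w
    rw [← ofFn_mpr]
    have : (fun i => M i (w i)) = fun i : Fin n => M' i (w i) := by
      funext i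
      simp only [hM', i.2, dif_pos]
    rw [this]
  simp only [h]
  exact crk_mpr M' u v k

theorem exists_suppRank {K : Type} {β : Type*} [Field K] [Fintype β] [DecidableEq β] {n s : ℕ}
    (f : (Fin n → β) → K) (hs : ∀ j, crk f (ini n j) ≤ s) (S : Finset (Fin n → β))
    (hS : ∀ w, w ∈ S ↔ f w ≠ 0) (j : ℕ) : SuppRank S (ini n j) s :=
  ⟨K, inferInstance, f, fun w => (hS w).symm, by rw [← crk_eq_rk]; exact hs j⟩

/-- **Choices.** -/
theorem choice_words {K : Type} [Field K] {A : Set ℕ} {b n k s : ℕ} (hb : 2 ≤ b) (hn : 1 ≤ n)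
    (hr : ∀ m, rep A m < 2 ^ (k + 1)) (f : (Fin n → Fin b × Fin b) → K)
    (hA : ∀ w, f w ≠ 0 → (value fun t => (w t).2) ≤ (value fun t => (w t).1) ∧
      (value fun t => (w t).2) ∈ A ∧ (value fun t => (w t).1) - (value fun t => (w t).2) ∈ A)
    (hs : ∀ j, crk f (ini n j) ≤ s) (S' : Finset (Fin n → Fin b × Fin b))
    (hmem : ∀ w, w ∈ S' ↔ f w ≠ 0) :
    S'.card ≤ (n * (b * b + 1)) ^ (2 * k + 1) * (max s (b * b)) ^ (3 * (2 ^ (2 * k + 1) - 1)) := by
  classical
  rcases S'.eq_empty_or_nonempty with he | ⟨z, hz⟩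
  · rw [he]
    simp
  obtain ⟨T, hT, hset, hblocks⟩ := Helper29.MP.exists_path n n hn le_rfl
  have huniv : T.set = univ := by
    rw [hset]
    exact Finset.filter_true_of_mem fun i _ => i.2
  have hsupp := exists_suppRank f hs S' hmem
  have hm0 : 1 ≤ max s (b * b) := le_max_of_le_right (by nlinarith)
  have hcardβ : Fintype.card (Fin b × Fin b) = b * b := by
    rw [Fintype.card_prod, Fintype.card_fin]
  have hrk : ∀ D ∈ T.blocks, SuppRank S' D (max s (b * b)) := by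
    intro D hD
    rcases hblocks D hD with ⟨j, rfl⟩ | ⟨i, rfl⟩
    · obtain ⟨F, hF, f, hf, h⟩ := hsupp j
      exact ⟨F, hF, f, hf, h.trans (le_max_left _ _)⟩
    · obtain ⟨F, hF, f, hf, -⟩ := hsupp 0
      refine ⟨F, hF, f, hf, (rk_single f i).trans ?_⟩
      rw [hcardβ]
      exact le_max_right _ _
  have h1 := card_le_of_suppRank z T hT huniv (2 * k + 1) (max s (b * b)) S' hm0 hrk (by
    intro hbox
    set e : Fin n → Fin b × Fin b → ℤ × ℤ := fun i d =>
      ((((d.1 : ℕ) * b ^ (i : ℕ) : ℕ) : ℤ), (((d.2 : ℕ) * b ^ (i : ℕ) : ℕ) : ℤ)) with he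
    have hval : ∀ w : Fin n → Fin b × Fin b, ∑ i, e i (w i) =
        (((value fun i => (w i).1 : ℕ) : ℤ), ((value fun i => (w i).2 : ℕ) : ℤ)) := by
      intro w
      refine Prod.ext ?_ ?_
      · rw [Prod.fst_sum]
        simp only [value, Nat.cast_sum, he]
      · rw [Prod.snd_sum]
        simp only [value, Nat.cast_sum, he]
    have hinj : Function.Injective fun w : Fin n → Fin b × Fin b => ∑ i, e i (w i) := by
      intro w w' h
      simp only [hval, Prod.mk.injEq] at h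
      obtain ⟨h1, h2⟩ := h
      have h3 := value_injective (Nat.cast_injective h1)
      have h4 := value_injective (Nat.cast_injective h2)
      funext i
      exact Prod.ext (congrFun h3 i) (congrFun h4 i)
    obtain ⟨g, l, hl, hc, hsub⟩ := cube_of_box e hinj z _ _ hbox
    refine no_cube2 hr (S := S'.image fun w => ∑ i, e i (w i)) ?_ g l hl (by rw [hc, hl]) ?_
    · intro y hy
      obtain ⟨w, hw, rfl⟩ := Finset.mem_image.1 hy
      have h2 := hA _ ((hmem w).1 hw)
      exact ⟨_, _, hval w, h2.1, h2.2.1, h2.2.2⟩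
    · intro y hy
      obtain ⟨w, hw, rfl⟩ := hsub y hy
      exact Finset.mem_image.2 ⟨w, hw, rfl⟩)
  rw [bd, Fintype.card_fin, hcardβ] at h1
  exact h1

/-- **Elements.** -/
theorem subset_words {K : Type} [Field K] {A : Set ℕ} {b n k s : ℕ} (hb : 2 ≤ b) (hn : 1 ≤ n)
    (hr : ∀ m, rep A m < 2 ^ (k + 1)) (f : (Fin n → Fin b) → K)
    (hA : ∀ w, f w ≠ 0 → value w ∈ A)
    (hs : ∀ j, crk f (ini n j) ≤ s) (S' : Finset (Fin n → Fin b))
    (hmem : ∀ w, w ∈ S' ↔ f w ≠ 0) :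
    S'.card ≤ (n * (b + 1)) ^ k * (max s b) ^ (3 * (2 ^ k - 1)) := by
  classical
  obtain ⟨T, hT, hset, hblocks⟩ := Helper29.MP.exists_path n n hn le_rfl
  have huniv : T.set = univ := by
    rw [hset]
    exact Finset.filter_true_of_mem fun i _ => i.2
  have hsupp := exists_suppRank f hs S' hmem
  have hrk : ∀ D ∈ T.blocks, SuppRank S' D (max s b) := by
    intro D hD
    rcases hblocks D hD with ⟨j, rfl⟩ | ⟨i, rfl⟩
    · obtain ⟨F, hF, f, hf, h⟩ := hsupp j
      exact ⟨F, hF, f, hf, h.trans (le_max_left _ _)⟩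
    · obtain ⟨F, hF, f, hf, -⟩ := hsupp 0
      exact ⟨F, hF, f, hf, (Helper29.MP.rk_singleton f i).trans (le_max_right _ _)⟩
  exact Helper84.TN.supp_int_bound (A := A) (x := b ^ n) (k := k) T hT huniv S'
    (le_max_of_le_right (by omega)) hrk
    (fun w hw => ⟨hA _ ((hmem w).1 hw), (value_lt w).le⟩) (fun m _ => hr m)

/-- `f` is computed on the numbers with `n` base `b` digits by a weighted automaton with `s` states:
`f` of the number with the digits `w 0, .., w (n - 1)` is the product of the `s × s` matrices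
`M i (w i)` between two vectors. -/
def Aut {K : Type} [Field K] (b n s : ℕ) (f : ℕ → K) : Prop :=
  ∃ (M : Fin n → Fin b → Matrix (Fin s) (Fin s) K) (u v : Fin s → K), ∀ w : Fin n → Fin b,
    f (value w) = u ⬝ᵥ (List.ofFn fun i => M i (w i)).prod.mulVec v

/-- the same for functions of two variables -/
def Aut2 {K : Type} [Field K] (b n s : ℕ) (f : ℕ → ℕ → K) : Prop :=
  ∃ (M : Fin n → Fin b → Fin b → Matrix (Fin s) (Fin s) K) (u v : Fin s → K),
    ∀ w w' : Fin n → Fin b, f (value w) (value w') =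
      u ⬝ᵥ (List.ofFn fun i => M i (w i) (w' i)).prod.mulVec v

theorem aut_growth {b : ℕ} (hb : 2 ≤ b) (g : ℕ) {d : ℝ} (hd : 0 < d) :
    ∃ c : ℝ, 0 < c ∧ ∃ n₀ : ℕ, ∀ n ≥ n₀, ∀ (K : Type) [Field K] (A : Set ℕ) (s : ℕ) (f : ℕ → K),
      (∀ m, rep A m ≤ g) → Aut b n s f → (∀ a < b ^ n, f a ≠ 0 → a ∈ A) →
      (b : ℝ) ^ (d * n) ≤ {a | a < b ^ n ∧ f a ≠ 0}.ncard → (b : ℝ) ^ (c * n) ≤ s := by
  classical
  have hE : 1 ≤ 3 * (2 ^ (g + 1) - 1) := by
    have : 2 ^ 1 ≤ 2 ^ (g + 1) := Nat.pow_le_pow_right (by norm_num) (by omega)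
    omega
  obtain ⟨n₀, hn₀⟩ := asym hb hd (b + 1) (g + 1) (3 * (2 ^ (g + 1) - 1)) b hE
  have hE0 : (0 : ℝ) < (3 * (2 ^ (g + 1) - 1) : ℕ) := by exact_mod_cast hE
  refine ⟨d / (2 * (3 * (2 ^ (g + 1) - 1) : ℕ)), by positivity, n₀ + 1, ?_⟩
  rintro n hn K _ A s f hr ⟨M, u, v, hf⟩ hA hcard
  refine hn₀ n (by omega) s (hcard.trans ?_)
  set S' : Finset (Fin n → Fin b) := Finset.univ.filter fun w => f (value w) ≠ 0 with hS'
  have hmem : ∀ w, w ∈ S' ↔ f (value w) ≠ 0 := by
    intro w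
    rw [hS', mem_filter]
    simp
  have h1 := subset_words (A := A) (k := g + 1) (s := s) hb (by omega : 1 ≤ n)
    (fun m => (hr m).trans_lt
      ((Nat.lt_two_pow_self).trans (Nat.pow_lt_pow_right (by norm_num) (by omega))))
    (fun w : Fin n → Fin b => f (value w)) (fun w hw => hA _ (value_lt w) hw)
    (fun j => by simp only [hf]; exact crk_ofFn M u v j) S' hmem
  have hc : {a | a < b ^ n ∧ f a ≠ 0}.ncard ≤ S'.card := by
    have e : {a | a < b ^ n ∧ f a ≠ 0} = ((S'.image value : Finset ℕ) : Set ℕ) := by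
      ext a
      rw [Finset.mem_coe, Finset.mem_image]
      constructor
      · rintro ⟨h3, h4⟩
        obtain ⟨w, rfl⟩ := exists_word (b := b) (n := n) h3
        exact ⟨w, (hmem w).2 h4, rfl⟩
      · rintro ⟨w, hw, rfl⟩
        exact ⟨value_lt w, (hmem w).1 hw⟩
    rw [e, Set.ncard_coe_finset]
    exact Finset.card_image_le
  exact_mod_cast hc.trans h1

theorem aut2_growth {b : ℕ} (hb : 2 ≤ b) (g : ℕ) {d : ℝ} (hd : 0 < d) :
    ∃ c : ℝ, 0 < c ∧ ∃ n₀ : ℕ, ∀ n ≥ n₀, ∀ (K : Type) [Field K] (A : Set ℕ) (s : ℕ)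
      (f : ℕ → ℕ → K), (∀ m, rep A m ≤ g) → Aut2 b n s f →
      (∀ c < b ^ n, ∀ a, f c a ≠ 0 → a ∈ A ∧ ∃ a' ∈ A, a + a' = c) →
      (b : ℝ) ^ (d * n) ≤ {c | c < b ^ n ∧ ∃ a, f c a ≠ 0}.ncard → (b : ℝ) ^ (c * n) ≤ s := by
  classical
  have hE : 1 ≤ 3 * (2 ^ (2 * g + 1) - 1) := by
    have : 2 ^ 1 ≤ 2 ^ (2 * g + 1) := Nat.pow_le_pow_right (by norm_num) (by omega)
    omega
  obtain ⟨n₀, hn₀⟩ := asym hb hd (b * b + 1) (2 * g + 1) (3 * (2 ^ (2 * g + 1) - 1)) (b * b) hE
  have hE0 : (0 : ℝ) < (3 * (2 ^ (2 * g + 1) - 1) : ℕ) := by exact_mod_cast hE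
  refine ⟨d / (2 * (3 * (2 ^ (2 * g + 1) - 1) : ℕ)), by positivity, n₀ + 1, ?_⟩
  rintro n hn K _ A s f hr ⟨M, u, v, hf⟩ hA hcard
  refine hn₀ n (by omega) s (hcard.trans ?_)
  set F : (Fin n → Fin b × Fin b) → K := fun w => f (value fun t => (w t).1) (value fun t => (w t).2)
    with hF
  set S' : Finset (Fin n → Fin b × Fin b) := Finset.univ.filter fun w => F w ≠ 0 with hS'
  have hmem : ∀ w, w ∈ S' ↔ F w ≠ 0 := by
    intro w
    rw [hS', mem_filter]
    simp
  have h1 := choice_words (A := A) (k := g) (s := s) hb (by omega : 1 ≤ n)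
    (fun m => (hr m).trans_lt
      ((Nat.lt_two_pow_self).trans (Nat.pow_lt_pow_right (by norm_num) (by omega))))
    F (fun w hw => by
      obtain ⟨h2, a', h3, h4⟩ := hA _ (value_lt _) _ hw
      have e : (value fun t => (w t).1) - (value fun t => (w t).2) = a' := by omega
      rw [e]
      exact ⟨by omega, h2, h3⟩)
    (fun j => by
      simp only [hF, hf]
      exact crk_ofFn (fun i (d : Fin b × Fin b) => M i d.1 d.2) u v j) S' hmem
  have hc : {c | c < b ^ n ∧ ∃ a, f c a ≠ 0}.ncard ≤ S'.card := by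
    have e : {c | c < b ^ n ∧ ∃ a, f c a ≠ 0} ⊆
        ((S'.image fun w => value fun t => (w t).1 : Finset ℕ) : Set ℕ) := by
      rintro c ⟨h3, a, h4⟩
      rw [Finset.mem_coe, Finset.mem_image]
      obtain ⟨-, a', -, h5⟩ := hA c h3 a h4
      obtain ⟨w, rfl⟩ := exists_word (b := b) (n := n) h3
      obtain ⟨w', rfl⟩ := exists_word (b := b) (n := n) (c := a) (by omega)
      exact ⟨fun t => (w t, w' t), (hmem _).2 h4, rfl⟩
    refine (Set.ncard_le_ncard e (Finset.finite_toSet _)).trans ?_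
    rw [Set.ncard_coe_finset]
    exact Finset.card_image_le
  exact_mod_cast hc.trans h1

end Pool.Agent.Helper84.MP
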