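import Pool.Agent.Helper84.MP.Family
import Pool.Agent.Helper12.MP.State
import Pool.Agent.Helper79.MP.Card
import Pool.Agent.Helper1.MP.Arith
import Pool.Agent.Helper84.TN.Int

/-!
Functions of small rank at the initial segments of the digits which vanish outside a set with small
representation function.
-/

namespace Pool.Agent.Helper84.MP

open Finset Pool.Agent.Helper84.TN
open Pool.Agent.Helper82.CF (rep rep_finite)

theorem value_swap {n b : ℕ} {p q a c : Fin n → Fin b}
    (h : ∀ i, (p i = a i ∧ q i = c i) ∨ (p i = c i ∧ q i = a i)) :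
    value p + value q = value a + value c := by
  unfold value
  rw [← Finset.sum_add_distrib, ← Finset.sum_add_distrib]
  refine Finset.sum_congr rfl fun i _ => ?_
  rcases h i with ⟨h1, h2⟩ | ⟨h1, h2⟩
  · rw [h1, h2]
  · rw [h1, h2, add_comm]

theorem card_le_rep {A : Set ℕ} {n b m : ℕ} (F : Finset ((Fin n → Fin b) × (Fin n → Fin b)))
    (h : ∀ p ∈ F, value p.1 ∈ A ∧ value p.2 ∈ A ∧ value p.1 + value p.2 = m) :
    F.card ≤ rep A m := by
  classical
  unfold rep
  have e : F.card = ((F.image fun p => (value p.1, value p.2) : Finset (ℕ × ℕ)) :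
      Set (ℕ × ℕ)).ncard := by
    rw [Set.ncard_coe_finset, Finset.card_image_of_injective]
    intro p q hpq
    have h12 := Prod.mk.inj hpq
    exact Prod.ext (value_injective h12.1) (value_injective h12.2)
  rw [e]
  refine Set.ncard_le_ncard ?_ (rep_finite A m)
  intro z hz
  rw [Finset.mem_coe, Finset.mem_image] at hz
  obtain ⟨p, hp, rfl⟩ := hz
  exact h p hp

/-- **The bound.** -/
theorem mp_bound {K : Type*} [Field K] {A : Set ℕ} {n b s x : ℕ} (hb : 2 ≤ b)
    (f : (Fin n → Fin b) → K)
    (hs : ∀ k : ℕ, crk f (univ.filter fun i : Fin n => (i : ℕ) < k) ≤ s)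
    (hne : ∃ w, f w ≠ 0) (hA : ∀ w, f w ≠ 0 → value w ∈ A ∧ value w ≤ x) :
    ∃ m ≤ 2 * x, Real.log (size f) ^ 2 ≤
      70 * (s + Real.log b) * (n * Real.log b) * Real.log (rep A m) := by
  classical
  set S : Finset (Fin n → Fin b) := Finset.univ.filter fun w => f w ≠ 0 with hS
  have hsize : size f = S.card := by
    unfold size
    exact congrArg Finset.card (Finset.ext fun v => by simp [hS])
  have hmem : ∀ w, w ∈ S ↔ f w ≠ 0 := fun w => by simp [hS]
  have hSne : S.Nonempty := by
    obtain ⟨w, hw⟩ := hne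
    exact ⟨w, (hmem w).2 hw⟩
  have hlogb : 0 ≤ Real.log b := Real.log_natCast_nonneg b
  have hnonneg : ∀ m, 0 ≤ 70 * (s + Real.log b) * (n * Real.log b) * Real.log (rep A m) := by
    intro m
    have := Real.log_natCast_nonneg (rep A m)
    positivity
  rw [hsize]
  rcases Nat.lt_or_ge S.card 2 with h1 | h1
  · refine ⟨0, Nat.zero_le _, ?_⟩
    have h2 : S.card = 1 := by
      have := hSne.card_pos
      omega
    rw [h2, Nat.cast_one, Real.log_one]
    have := hnonneg 0
    simpa using this
  obtain ⟨m, hm, hmax⟩ := Finset.exists_max_image (Finset.range (2 * x + 1)) (rep A)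
    ⟨0, Finset.mem_range.2 (Nat.succ_pos _)⟩
  refine ⟨m, by have := Finset.mem_range.1 hm; omega, ?_⟩
  have hn : 1 ≤ n := by
    by_contra h0
    have h0' : n = 0 := by omega
    subst h0'
    have h3 : S.card ≤ 1 := by
      rw [Finset.card_le_one]
      intro a _ a' _
      exact Subsingleton.elim _ _
    omega
  have hs1 : 1 ≤ s := by
    obtain ⟨w, hw⟩ := hne
    refine le_trans ?_ (hs 0)
    unfold crk
    rw [Nat.one_le_iff_ne_zero]
    intro h0
    have h4 : Submodule.span K (Set.range (col f (univ.filter fun i : Fin n => (i : ℕ) < 0))) =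
        ⊥ := Submodule.finrank_eq_zero.1 h0
    have h5 : col f (univ.filter fun i : Fin n => (i : ℕ) < 0) w ∈
        (⊥ : Submodule K ((Fin n → Fin b) → K)) := by
      rw [← h4]
      exact Submodule.subset_span ⟨w, rfl⟩
    rw [Submodule.mem_bot] at h5
    have h6 := congrFun h5 w
    simp only [col, Finset.piecewise_same] at h6
    exact hw h6
  have hr2 : (2 : ℝ) ≤ rep A m := by
    obtain ⟨a, ha, a', ha', hne'⟩ := Finset.one_lt_card.1 (by omega : 1 < S.card)
    obtain ⟨ha1, ha2⟩ := hA a ((hmem a).1 ha)
    obtain ⟨ha1', ha2'⟩ := hA a' ((hmem a').1 ha')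
    have h3 := card_le_rep (A := A) (m := value a + value a') {(a, a'), (a', a)} (by
      intro p hp
      rw [mem_insert, mem_singleton] at hp
      rcases hp with rfl | rfl
      · exact ⟨ha1, ha1', rfl⟩
      · exact ⟨ha1', ha1, add_comm _ _⟩)
    rw [Finset.card_pair (by
      intro h
      exact hne' (Prod.mk.inj h).1)] at h3
    have h4 := hmax (value a + value a') (Finset.mem_range.2 (by omega))
    exact_mod_cast h3.trans h4
  have hcard : S.card ≤ b ^ n := by
    calc S.card ≤ (univ : Finset (Fin n → Fin b)).card := Finset.card_le_univ _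
      _ = b ^ n := by rw [Finset.card_univ, Fintype.card_fun, Fintype.card_fin, Fintype.card_fin]
  refine Helper1.MP.mp_arith hs1 hb hn h1 hcard hr2 ?_
  intro L j hL hj _
  set D : ℕ → Finset (Fin n) := fun t => univ.filter fun i : Fin n => (i : ℕ) < t * L with hD
  have hD0 : D 0 = ∅ := by
    rw [hD]
    ext i
    simp
  have hDj : D j = univ := by
    rw [hD]
    ext i
    simp only [mem_filter, mem_univ, true_and, iff_true]
    have := i.2
    omega
  have hmono : ∀ t, D t ⊆ D (t + 1) := by
    intro t i hi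
    rw [hD] at hi ⊢
    simp only [mem_filter, mem_univ, true_and] at hi ⊢
    have : t * L ≤ (t + 1) * L := Nat.mul_le_mul_right _ (Nat.le_succ t)
    omega
  have hpiece : ∀ t < j, (D (t + 1) \ D t).card ≤ L := by
    intro t _
    have h3 : (D (t + 1) \ D t).card ≤ (Finset.Ico (t * L) (t * L + L)).card := by
      refine Finset.card_le_card_of_injOn (fun i : Fin n => (i : ℕ)) ?_ ?_
      · intro i hi
        rw [mem_coe, mem_sdiff, hD] at hi
        simp only [mem_filter, mem_univ, true_and, not_lt] at hi
        simp only [mem_coe, Finset.mem_Ico]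
        have e : (t + 1) * L = t * L + L := by ring
        rw [e] at hi
        exact ⟨hi.2, hi.1⟩
      · intro i _ i' _ h
        exact Fin.ext h
    rwa [Nat.card_Ico, Nat.add_sub_cancel_left] at h3
  obtain ⟨W, V, J, g1, g2, g3, g4, g5, g6, g7, g8⟩ :=
    Helper12.MP.exists_state f D j s (fun t _ => hs (t * L)) S hSne
  obtain ⟨F, a, c, hF, hFc⟩ := exists_family hD0 hDj hmono
    (fun w hw => (hmem w).1 (g1 hw)) g2 g3 g4 g5 g6 g7
  refine ⟨J.card, ?_, ?_⟩
  · have hFne : F.Nonempty := by
      rw [← Finset.card_pos]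
      by_contra h0
      have h0' : F.card = 0 := by omega
      rw [h0', Nat.mul_zero] at hFc
      have : 0 < 3 ^ J.card := Nat.pow_pos (by norm_num)
      omega
    have hle : F.card ≤ rep A m := by
      refine le_trans (card_le_rep (A := A) (m := value a + value c) F fun p hp => ?_)
        (hmax _ (Finset.mem_range.2 ?_))
      · obtain ⟨c1, c2, c3⟩ := hF p hp
        exact ⟨(hA _ c1).1, (hA _ c2).1, value_swap c3⟩
      · obtain ⟨p, hp⟩ := hFne
        obtain ⟨c1, c2, c3⟩ := hF p hp
        rw [← value_swap c3]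
        have := (hA _ c1).2
        have := (hA _ c2).2
        omega
    have h3 : (3 : ℝ) ^ J.card ≤ 2 ^ J.card * rep A m := by
      calc (3 : ℝ) ^ J.card ≤ 2 ^ J.card * F.card := by exact_mod_cast hFc
        _ ≤ 2 ^ J.card * rep A m := by
            refine mul_le_mul_of_nonneg_left ?_ (by positivity)
            exact_mod_cast hle
    rw [div_pow, div_le_iff₀ (by positivity)]
    linarith
  · have h3 := card_state hD0 hDj hmono hpiece (by rw [Fintype.card_fin]; omega) g3 g6
    rw [Fintype.card_fin] at h3
    exact g8.trans (Nat.mul_le_mul_left _ h3)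

end Pool.Agent.Helper84.MP
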