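import Pool.Agent.Helper84.MP.Defs

/-!
A family of pairs of words with the same letters.
-/

namespace Pool.Agent.Helper84.MP

open Finset

variable {ι β K : Type*} [Fintype ι] [DecidableEq ι] [Fintype β] [DecidableEq β] [Field K]

/-- evaluation at `u` is not zero on `V` -/
def Good (V : Submodule K ((ι → β) → K)) (u : ι → β) : Prop := ∃ g ∈ V, g u ≠ 0

open Classical in
theorem few_bad {f : (ι → β) → K} {D : Finset ι} {W : Finset (ι → β)}
    {V : Submodule K ((ι → β) → K)} (h1 : ∀ w ∈ W, col f D w ∈ V)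
    (h2 : ∀ U < V, 16 * {w ∈ W | col f D w ∈ U}.card ≤ W.card) {u : ι → β} (hu : Good V u) :
    16 * {w ∈ W | f (D.piecewise u w) = 0}.card ≤ W.card := by
  obtain ⟨g, hg, hgu⟩ := hu
  set U : Submodule K ((ι → β) → K) :=
    V ⊓ LinearMap.ker (LinearMap.proj (R := K) (φ := fun _ : ι → β => K) u) with hU
  have hlt : U < V := by
    refine lt_of_le_of_ne inf_le_left fun h => ?_
    rw [← h, hU, Submodule.mem_inf, LinearMap.mem_ker] at hg
    exact hgu hg.2
  refine le_trans (Nat.mul_le_mul_left _ (Finset.card_le_card ?_)) (h2 U hlt)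
  intro w hw
  rw [mem_filter] at hw ⊢
  refine ⟨hw.1, ?_⟩
  rw [hU, Submodule.mem_inf, LinearMap.mem_ker]
  exact ⟨h1 w hw.1, hw.2⟩

omit [Fintype ι] [Fintype β] [DecidableEq β] in
theorem good_next {f : (ι → β) → K} {D E : Finset ι} (hDE : D ⊆ E) {u u' w : ι → β}
    {V : Submodule K ((ι → β) → K)} (hw : col f E w ∈ V) (h : f (D.piecewise u w) ≠ 0)
    (hu' : ∀ i ∈ E, u' i = D.piecewise u w i) : Good V u' := by
  refine ⟨col f E w, hw, ?_⟩
  have e : E.piecewise u' w = D.piecewise u w := by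
    funext i
    by_cases hi : i ∈ E
    · rw [Finset.piecewise_eq_of_mem _ _ _ hi, hu' i hi]
    · rw [Finset.piecewise_eq_of_notMem _ _ _ hi,
        Finset.piecewise_eq_of_notMem _ _ _ fun h => hi (hDE h)]
  change f (E.piecewise u' w) ≠ 0
  rw [e]
  exact h

open Classical in
theorem exists_good_ext {f : (ι → β) → K} {D : Finset ι} {W : Finset (ι → β)} (hW : W.Nonempty)
    {u : ι → β} (h : 16 * {w ∈ W | f (D.piecewise u w) = 0}.card ≤ W.card) :
    ∃ w ∈ W, f (D.piecewise u w) ≠ 0 := by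
  by_contra hcon
  push Not at hcon
  have e : {w ∈ W | f (D.piecewise u w) = 0} = W := Finset.filter_true_of_mem hcon
  rw [e] at h
  have := hW.card_pos
  omega

open Classical in
/-- The step for a piece with many values. -/
theorem step {f : (ι → β) → K} {D E : Finset ι} (hDE : D ⊆ E)
    {W : Finset (ι → β)} {V V' : Submodule K ((ι → β) → K)} (hW : W.Nonempty)
    (h1 : ∀ w ∈ W, col f D w ∈ V)
    (h2 : ∀ U < V, 16 * {w ∈ W | col f D w ∈ U}.card ≤ W.card)
    (h1' : ∀ w ∈ W, col f E w ∈ V')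
    (h4 : ∀ w ∈ W, 2 * {w' ∈ W | ∀ i ∈ E \ D, w' i = w i}.card ≤ W.card)
    (z : ι → β) (F : Finset ((ι → β) × (ι → β))) (a b : ι → β)
    (hF : ∀ p ∈ F, Good V p.1 ∧ Good V p.2 ∧
      (∀ i ∈ D, (p.1 i = a i ∧ p.2 i = b i) ∨ (p.1 i = b i ∧ p.2 i = a i)) ∧
      ∀ i ∉ D, p.1 i = z i ∧ p.2 i = z i) :
    ∃ (F' : Finset ((ι → β) × (ι → β))) (a' b' : ι → β),
      (∀ p ∈ F', Good V' p.1 ∧ Good V' p.2 ∧
        (∀ i ∈ E, (p.1 i = a' i ∧ p.2 i = b' i) ∨ (p.1 i = b' i ∧ p.2 i = a' i)) ∧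
        ∀ i ∉ E, p.1 i = z i ∧ p.2 i = z i) ∧ 3 * F.card ≤ 2 * F'.card := by
  set P := {q ∈ W ×ˢ W | ¬ ∀ i ∈ E \ D, q.2 i = q.1 i} with hP
  -- many pairs
  have hPcard : W.card * W.card ≤ 2 * P.card := by
    have e1 : P.card = ∑ w ∈ W, {w' ∈ W | ¬ ∀ i ∈ E \ D, w' i = w i}.card := by
      rw [hP, Finset.card_filter, Finset.sum_product]
      refine Finset.sum_congr rfl fun w _ => ?_
      rw [Finset.card_filter]
    rw [e1, Finset.mul_sum, ← smul_eq_mul, ← Finset.sum_const]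
    refine Finset.sum_le_sum fun w hw => ?_
    have h5 := Finset.card_filter_add_card_filter_not (s := W)
      (fun w' : ι → β => ∀ i ∈ E \ D, w' i = w i)
    have h6 := h4 w hw
    omega
  have hPne : P.Nonempty := by
    rw [← Finset.card_pos]
    have := Nat.mul_pos hW.card_pos hW.card_pos
    omega
  -- the good pairs for one element
  have key : ∀ u u' : ι → β, Good V u → Good V u' →
      3 * P.card ≤ 4 * {q ∈ P | f (D.piecewise u q.1) ≠ 0 ∧ f (D.piecewise u' q.2) ≠ 0}.card := by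
    intro u u' hu hu'
    have b1 := few_bad h1 h2 hu
    have b2 := few_bad h1 h2 hu'
    have h7 : P ⊆ {q ∈ P | f (D.piecewise u q.1) ≠ 0 ∧ f (D.piecewise u' q.2) ≠ 0} ∪
        ({w ∈ W | f (D.piecewise u w) = 0} ×ˢ W ∪ W ×ˢ {w ∈ W | f (D.piecewise u' w) = 0}) := by
      intro q hq
      have hqW : q.1 ∈ W ∧ q.2 ∈ W := by
        rw [hP, mem_filter, mem_product] at hq
        exact hq.1
      by_cases c1 : f (D.piecewise u q.1) = 0
      · exact mem_union.2 (Or.inr (mem_union.2 (Or.inl (mem_product.2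
          ⟨mem_filter.2 ⟨hqW.1, c1⟩, hqW.2⟩))))
      · by_cases c2 : f (D.piecewise u' q.2) = 0
        · exact mem_union.2 (Or.inr (mem_union.2 (Or.inr (mem_product.2
            ⟨hqW.1, mem_filter.2 ⟨hqW.2, c2⟩⟩))))
        · exact mem_union.2 (Or.inl (mem_filter.2 ⟨hq, c1, c2⟩))
    have h8 := (Finset.card_le_card h7).trans (Finset.card_union_le _ _)
    have h9 := h8.trans (Nat.add_le_add_left (Finset.card_union_le _ _) _)
    rw [card_product, card_product] at h9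
    have h10 : 16 * ({w ∈ W | f (D.piecewise u w) = 0}.card * W.card) ≤ W.card * W.card := by
      rw [← mul_assoc]
      exact Nat.mul_le_mul_right _ b1
    have h11 : 16 * (W.card * {w ∈ W | f (D.piecewise u' w) = 0}.card) ≤ W.card * W.card := by
      rw [mul_comm W.card, ← mul_assoc]
      exact Nat.mul_le_mul_right _ b2
    omega
  -- averaging
  have avg : ∃ q ∈ P, 6 * F.card ≤ 4 * ({p ∈ F | f (D.piecewise p.1 q.1) ≠ 0 ∧
      f (D.piecewise p.2 q.2) ≠ 0}.card + {p ∈ F | f (D.piecewise p.1 q.2) ≠ 0 ∧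
      f (D.piecewise p.2 q.1) ≠ 0}.card) := by
    apply Finset.exists_le_of_sum_le hPne
    rw [Finset.sum_const, smul_eq_mul, ← Finset.mul_sum, Finset.sum_add_distrib]
    have e1 : ∑ q ∈ P, {p ∈ F | f (D.piecewise p.1 q.1) ≠ 0 ∧ f (D.piecewise p.2 q.2) ≠ 0}.card =
        ∑ p ∈ F, {q ∈ P | f (D.piecewise p.1 q.1) ≠ 0 ∧ f (D.piecewise p.2 q.2) ≠ 0}.card := by
      simp only [Finset.card_filter]
      exact Finset.sum_comm
    have e2 : ∑ q ∈ P, {p ∈ F | f (D.piecewise p.1 q.2) ≠ 0 ∧ f (D.piecewise p.2 q.1) ≠ 0}.card =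
        ∑ p ∈ F, {q ∈ P | f (D.piecewise p.1 q.2) ≠ 0 ∧ f (D.piecewise p.2 q.1) ≠ 0}.card := by
      simp only [Finset.card_filter]
      exact Finset.sum_comm
    rw [e1, e2, ← Finset.sum_add_distrib, Finset.mul_sum]
    have e3 : P.card * (6 * F.card) = ∑ p ∈ F, 6 * P.card := by
      rw [Finset.sum_const, smul_eq_mul]
      ring
    rw [e3]
    refine Finset.sum_le_sum fun p hp => ?_
    obtain ⟨g1, g2, -, -⟩ := hF p hp
    have k1 := key p.1 p.2 g1 g2
    have k2 := key p.2 p.1 g2 g1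
    have e4 : {q ∈ P | f (D.piecewise p.1 q.2) ≠ 0 ∧ f (D.piecewise p.2 q.1) ≠ 0} =
        {q ∈ P | f (D.piecewise p.2 q.1) ≠ 0 ∧ f (D.piecewise p.1 q.2) ≠ 0} := by
      ext q
      simp only [mem_filter]
      tauto
    rw [e4]
    omega
  obtain ⟨⟨w, w'⟩, hq, hcount⟩ := avg
  simp only at hcount
  have hqm : (w ∈ W ∧ w' ∈ W) ∧ ¬ ∀ i ∈ E \ D, w' i = w i := by
    rw [hP, mem_filter, mem_product] at hq
    exact hq
  obtain ⟨⟨hw, hw'⟩, hdiff⟩ := hqm
  push Not at hdiff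
  obtain ⟨i0, hi0, hne⟩ := hdiff
  rw [mem_sdiff] at hi0
  set ext : (ι → β) → (ι → β) → (ι → β) := fun u w => E.piecewise (D.piecewise u w) z with hext
  have ext_mem : ∀ u w i, i ∈ E → ext u w i = D.piecewise u w i := fun u w i hi => by
    rw [hext]
    exact Finset.piecewise_eq_of_mem _ _ _ hi
  have ext_D : ∀ u w i, i ∈ D → ext u w i = u i := fun u w i hi => by
    rw [ext_mem _ _ _ (hDE hi)]
    exact Finset.piecewise_eq_of_mem _ _ _ hi
  have ext_mid : ∀ u w i, i ∈ E → i ∉ D → ext u w i = w i := fun u w i hi hi' => by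
    rw [ext_mem _ _ _ hi]
    exact Finset.piecewise_eq_of_notMem _ _ _ hi'
  have ext_out : ∀ u w i, i ∉ E → ext u w i = z i := fun u w i hi => by
    rw [hext]
    exact Finset.piecewise_eq_of_notMem _ _ _ hi
  have ext_good : ∀ u w, w ∈ W → f (D.piecewise u w) ≠ 0 → Good V' (ext u w) :=
    fun u w hw h => good_next hDE (h1' w hw) h fun i hi => ext_mem u w i hi
  set A1 := {p ∈ F | f (D.piecewise p.1 w) ≠ 0 ∧ f (D.piecewise p.2 w') ≠ 0} with hA1
  set A2 := {p ∈ F | f (D.piecewise p.1 w') ≠ 0 ∧ f (D.piecewise p.2 w) ≠ 0} with hA2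
  set s1 : (ι → β) × (ι → β) → (ι → β) × (ι → β) := fun p => (ext p.1 w, ext p.2 w') with hs1
  set s2 : (ι → β) × (ι → β) → (ι → β) × (ι → β) := fun p => (ext p.1 w', ext p.2 w) with hs2
  have ext_inj : ∀ u u' w, (∀ i ∉ D, u i = z i) → (∀ i ∉ D, u' i = z i) →
      ext u w = ext u' w → u = u' := by
    intro u u' w hu hu' h
    funext i
    by_cases hi : i ∈ D
    · rw [← ext_D u w i hi, ← ext_D u' w i hi, h]
    · rw [hu i hi, hu' i hi]
  have inj : ∀ w w' : ι → β, Set.InjOn (fun p : (ι → β) × (ι → β) => (ext p.1 w, ext p.2 w'))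
      (F : Set ((ι → β) × (ι → β))) := by
    intro w w' p hp p' hp' h
    obtain ⟨-, -, -, hp0⟩ := hF p (mem_coe.1 hp)
    obtain ⟨-, -, -, hp0'⟩ := hF p' (mem_coe.1 hp')
    have h12 := Prod.mk.inj h
    exact Prod.ext (ext_inj _ _ w (fun i hi => (hp0 i hi).1) (fun i hi => (hp0' i hi).1) h12.1)
      (ext_inj _ _ w' (fun i hi => (hp0 i hi).2) (fun i hi => (hp0' i hi).2) h12.2)
  refine ⟨A1.image s1 ∪ A2.image s2, D.piecewise a w, D.piecewise b w', ?_, ?_⟩
  · intro p hp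
    rw [mem_union, mem_image, mem_image] at hp
    rcases hp with ⟨p0, hp0, rfl⟩ | ⟨p0, hp0, rfl⟩
    · rw [hA1, mem_filter] at hp0
      obtain ⟨-, -, c3, c4⟩ := hF p0 hp0.1
      refine ⟨ext_good _ _ hw hp0.2.1, ext_good _ _ hw' hp0.2.2, fun i hi => ?_, fun i hi =>
        ⟨ext_out _ _ i hi, ext_out _ _ i hi⟩⟩
      by_cases hiD : i ∈ D
      · rw [Finset.piecewise_eq_of_mem _ _ _ hiD, Finset.piecewise_eq_of_mem _ _ _ hiD]
        simp only [hs1]
        rw [ext_D _ _ i hiD, ext_D _ _ i hiD]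
        exact c3 i hiD
      · rw [Finset.piecewise_eq_of_notMem _ _ _ hiD, Finset.piecewise_eq_of_notMem _ _ _ hiD]
        simp only [hs1]
        rw [ext_mid _ _ i hi hiD, ext_mid _ _ i hi hiD]
        exact Or.inl ⟨rfl, rfl⟩
    · rw [hA2, mem_filter] at hp0
      obtain ⟨-, -, c3, c4⟩ := hF p0 hp0.1
      refine ⟨ext_good _ _ hw' hp0.2.1, ext_good _ _ hw hp0.2.2, fun i hi => ?_, fun i hi =>
        ⟨ext_out _ _ i hi, ext_out _ _ i hi⟩⟩
      by_cases hiD : i ∈ D
      · rw [Finset.piecewise_eq_of_mem _ _ _ hiD, Finset.piecewise_eq_of_mem _ _ _ hiD]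
        simp only [hs2]
        rw [ext_D _ _ i hiD, ext_D _ _ i hiD]
        exact c3 i hiD
      · rw [Finset.piecewise_eq_of_notMem _ _ _ hiD, Finset.piecewise_eq_of_notMem _ _ _ hiD]
        simp only [hs2]
        rw [ext_mid _ _ i hi hiD, ext_mid _ _ i hi hiD]
        exact Or.inr ⟨rfl, rfl⟩
  · have hdisj : Disjoint (A1.image s1) (A2.image s2) := by
      rw [Finset.disjoint_left]
      intro p hp hp'
      rw [mem_image] at hp hp'
      obtain ⟨p0, -, rfl⟩ := hp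
      obtain ⟨p1, -, h⟩ := hp'
      have h12 := congrFun (Prod.mk.inj h).1 i0
      rw [ext_mid _ _ i0 hi0.1 hi0.2, ext_mid _ _ i0 hi0.1 hi0.2] at h12
      exact hne h12
    rw [Finset.card_union_of_disjoint hdisj,
      Finset.card_image_of_injOn ((inj w w').mono (by
        intro p hp
        rw [hA1, mem_coe, mem_filter] at hp
        exact mem_coe.2 hp.1)),
      Finset.card_image_of_injOn ((inj w' w).mono (by
        intro p hp
        rw [hA2, mem_coe, mem_filter] at hp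
        exact mem_coe.2 hp.1))]
    omega

open Classical in
/-- Piece B -/
theorem exists_family {f : (ι → β) → K} {D : ℕ → Finset ι} {j : ℕ}
    (hD0 : D 0 = ∅) (hDj : D j = univ) (hmono : ∀ t, D t ⊆ D (t + 1))
    {W : Finset (ι → β)} {V : ℕ → Submodule K ((ι → β) → K)} {J : Finset ℕ}
    (hf : ∀ w ∈ W, f w ≠ 0) (hW : W.Nonempty) (hJ : J ⊆ range j)
    (h1 : ∀ t ≤ j, ∀ w ∈ W, col f (D t) w ∈ V t)
    (h2 : ∀ t ≤ j, ∀ U < V t, 16 * {w ∈ W | col f (D t) w ∈ U}.card ≤ W.card)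
    (h3 : ∀ t < j, t ∉ J → ∀ w ∈ W, ∀ w' ∈ W, ∀ i ∈ D (t + 1) \ D t, w i = w' i)
    (h4 : ∀ t ∈ J, ∀ w ∈ W, 2 * {w' ∈ W | ∀ i ∈ D (t + 1) \ D t, w' i = w i}.card ≤ W.card) :
    ∃ (F : Finset ((ι → β) × (ι → β))) (a b : ι → β),
      (∀ p ∈ F, f p.1 ≠ 0 ∧ f p.2 ≠ 0 ∧
        ∀ i, (p.1 i = a i ∧ p.2 i = b i) ∨ (p.1 i = b i ∧ p.2 i = a i)) ∧
      3 ^ J.card ≤ 2 ^ J.card * F.card := by
  obtain ⟨z, hz⟩ := hW
  have main : ∀ k ≤ j, ∃ (F : Finset ((ι → β) × (ι → β))) (a b : ι → β),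
      (∀ p ∈ F, Good (V k) p.1 ∧ Good (V k) p.2 ∧
        (∀ i ∈ D k, (p.1 i = a i ∧ p.2 i = b i) ∨ (p.1 i = b i ∧ p.2 i = a i)) ∧
        ∀ i ∉ D k, p.1 i = z i ∧ p.2 i = z i) ∧
      3 ^ {t ∈ J | t < k}.card ≤ 2 ^ {t ∈ J | t < k}.card * F.card := by
    intro k
    induction k with
    | zero =>
      intro _
      refine ⟨{(z, z)}, z, z, ?_, ?_⟩
      · intro p hp
        rw [mem_singleton] at hp
        subst hp
        have hg : Good (V 0) z := by
          refine ⟨col f (D 0) z, h1 0 (Nat.zero_le _) z hz, ?_⟩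
          change f ((D 0).piecewise z z) ≠ 0
          rw [Finset.piecewise_same]
          exact hf z hz
        exact ⟨hg, hg, fun i _ => Or.inl ⟨rfl, rfl⟩, fun i _ => ⟨rfl, rfl⟩⟩
      · simp
    | succ k ih =>
      intro hk
      obtain ⟨F, a, b, hF, hc⟩ := ih (by omega)
      by_cases hkJ : k ∈ J
      · obtain ⟨F', a', b', hF', hc'⟩ := step (hmono k) ⟨z, hz⟩ (h1 k (by omega)) (h2 k (by omega))
          (h1 (k + 1) hk) (h4 k hkJ) z F a b hF
        refine ⟨F', a', b', hF', ?_⟩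
        have e : {t ∈ J | t < k + 1} = insert k {t ∈ J | t < k} := by
          ext t
          simp only [mem_filter, mem_insert]
          constructor
          · rintro ⟨h5, h6⟩
            rcases Nat.lt_succ_iff_lt_or_eq.1 h6 with h7 | h7
            · exact Or.inr ⟨h5, h7⟩
            · exact Or.inl h7
          · rintro (rfl | ⟨h5, h6⟩)
            · exact ⟨hkJ, Nat.lt_succ_self _⟩
            · exact ⟨h5, by omega⟩
        rw [e, Finset.card_insert_of_notMem (by simp), pow_succ, pow_succ]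
        calc 3 ^ {t ∈ J | t < k}.card * 3 ≤ 2 ^ {t ∈ J | t < k}.card * F.card * 3 :=
              Nat.mul_le_mul_right _ hc
          _ = 2 ^ {t ∈ J | t < k}.card * (3 * F.card) := by ring
          _ ≤ 2 ^ {t ∈ J | t < k}.card * (2 * F'.card) := Nat.mul_le_mul_left _ hc'
          _ = 2 ^ {t ∈ J | t < k}.card * 2 * F'.card := by ring
      · have e : {t ∈ J | t < k + 1} = {t ∈ J | t < k} := by
          ext t
          simp only [mem_filter]
          constructor
          · rintro ⟨h5, h6⟩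
            refine ⟨h5, ?_⟩
            rcases Nat.lt_succ_iff_lt_or_eq.1 h6 with h7 | h7
            · exact h7
            · exact absurd (h7 ▸ h5) hkJ
          · rintro ⟨h5, h6⟩
            exact ⟨h5, by omega⟩
        rw [e]
        refine ⟨F, (D k).piecewise a z, (D k).piecewise b z, ?_, hc⟩
        intro p hp
        obtain ⟨c1, c2, c3, c4⟩ := hF p hp
        have ext : ∀ u : ι → β, Good (V k) u → (∀ i ∉ D k, u i = z i) → Good (V (k + 1)) u := by
          intro u hu hu0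
          obtain ⟨w, hw, hfw⟩ := exists_good_ext ⟨z, hz⟩
            (few_bad (h1 k (by omega)) (h2 k (by omega)) hu)
          refine good_next (hmono k) (h1 (k + 1) hk w hw) hfw fun i hi => ?_
          by_cases hiD : i ∈ D k
          · rw [Finset.piecewise_eq_of_mem _ _ _ hiD]
          · rw [Finset.piecewise_eq_of_notMem _ _ _ hiD, hu0 i hiD]
            exact h3 k (by omega) hkJ z hz w hw i (mem_sdiff.2 ⟨hi, hiD⟩)
        refine ⟨ext _ c1 fun i hi => (c4 i hi).1, ext _ c2 fun i hi => (c4 i hi).2,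
          fun i hi => ?_, fun i hi => c4 i fun h => hi (hmono k h)⟩
        by_cases hiD : i ∈ D k
        · rw [Finset.piecewise_eq_of_mem _ _ _ hiD, Finset.piecewise_eq_of_mem _ _ _ hiD]
          exact c3 i hiD
        · rw [Finset.piecewise_eq_of_notMem _ _ _ hiD, Finset.piecewise_eq_of_notMem _ _ _ hiD]
          exact Or.inl (c4 i hiD)
  obtain ⟨F, a, b, hF, hc⟩ := main j le_rfl
  have e : {t ∈ J | t < j} = J := Finset.filter_true_of_mem fun t ht => mem_range.1 (hJ ht)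
  rw [e] at hc
  have fin : ∀ u : ι → β, Good (V j) u → f u ≠ 0 := by
    intro u hu
    obtain ⟨w, -, hfw⟩ := exists_good_ext (D := D j) ⟨z, hz⟩
      (few_bad (h1 j le_rfl) (h2 j le_rfl) hu)
    rw [hDj, Finset.piecewise_univ] at hfw
    exact hfw
  refine ⟨F, a, b, fun p hp => ?_, hc⟩
  obtain ⟨c1, c2, c3, -⟩ := hF p hp
  exact ⟨fin _ c1, fin _ c2, fun i => c3 i (by rw [hDj]; exact mem_univ i)⟩

end Pool.Agent.Helper84.MP
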