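import Pool.Agent.Helper84.MP.Cut
import Pool.Agent.Helper84.TN.Supp
import Pool.Agent.Helper29.MP.RegBdd

/-!
The bound for sets of small cut rank.
-/

namespace Pool.Agent.Helper84.MP.Mine

open Finset Pool.Agent.Helper84.MP Pool.Agent.Helper84.TN
open Pool.Agent.Helper82.CF (rep)

/-- T3 -/
theorem cut_rate {A : Set ℕ} {n b x s : ℕ} (S : Finset (Fin n → Fin b)) (hne : S.Nonempty)
    (hr : ∀ k, SuppRank S (ini n k) s) (hA : ∀ w ∈ S, value w ∈ A ∧ value w ≤ x) :
    ∃ m ≤ 2 * x, Real.log S.card ≤ 3 * rep A m * Real.log (n * (b + 1) * max s b) := by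
  classical
  rcases Nat.eq_zero_or_pos n with h0 | hn
  · subst h0
    refine ⟨0, Nat.zero_le _, ?_⟩
    have h1 : S.card ≤ 1 := by
      rw [Finset.card_le_one]
      intro a _ a' _
      exact Subsingleton.elim _ _
    have h2 : S.card = 1 := by
      have := hne.card_pos
      omega
    rw [h2]
    simp
  obtain ⟨T, hT, hset, hbl⟩ := Helper29.MP.exists_path n n hn le_rfl
  have huniv : T.set = Finset.univ := by
    rw [hset]
    ext i
    simp [i.2]
  have hr' : ∀ D ∈ T.blocks, SuppRank S D (max s b) := by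
    intro D hD
    rcases hbl D hD with ⟨j, rfl⟩ | ⟨i, rfl⟩
    · obtain ⟨F, hF, f, h1, h2⟩ := hr j
      exact ⟨F, hF, f, h1, h2.trans (le_max_left _ _)⟩
    · exact ⟨ℚ, inferInstance, fun w => if w ∈ S then 1 else 0, fun w => by simp,
        (Helper29.MP.rk_singleton _ i).trans (le_max_right _ _)⟩
  obtain ⟨m, hm, h⟩ := supp_int_rate T hT huniv S hne hr' hA
  refine ⟨m, hm, ?_⟩
  have hb : 1 ≤ b := by
    obtain ⟨w, -⟩ := hne
    have := (w ⟨0, hn⟩).pos
    omega
  have hQ : 2 ≤ n * (b + 1) * max s b := by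
    calc 2 = 1 * 2 * 1 := by norm_num
      _ ≤ n * (b + 1) * max s b :=
        Nat.mul_le_mul (Nat.mul_le_mul hn (by omega)) (hb.trans (le_max_right _ _))
  have hQ' : (1 : ℝ) < n * (b + 1) * max s b := by
    have : (2 : ℝ) ≤ n * (b + 1) * max s b := by
      have h9 : ((2 : ℕ) : ℝ) ≤ ((n * (b + 1) * max s b : ℕ) : ℝ) := Nat.cast_le.2 hQ
      rwa [Nat.cast_mul, Nat.cast_mul, Nat.cast_add, Nat.cast_one, Nat.cast_ofNat] at h9
    linarith
  have hlog : 0 < 3 * Real.log (n * (b + 1) * max s b) := by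
    have := Real.log_pos hQ'
    linarith
  have h' := h
  rw [div_le_iff₀ hlog] at h'
  calc Real.log S.card ≤ rep A m * (3 * Real.log (n * (b + 1) * max s b)) := h'
    _ = 3 * rep A m * Real.log (n * (b + 1) * max s b) := by ring

end Pool.Agent.Helper84.MP.Mine
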