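import Mathlib
import Pool.Agent.Helper84.MP.Aut
import Pool.Agent.Helper12.MP.Reg2
import Pool.Agent.Helper1.MP.Reg2
import Pool.Agent.Helper1.MP.OneFun
import Pool.Agent.Helper12.MP.Aut
/-!
MP_12a1af_nt (Erdős–Turán): choices of representations by automata with few states.
-/

namespace Pool.Agent.Helper84.MP.V7

open Matrix
open Pool.Agent.Helper84.TN (value)
open Pool.Agent.Helper84.MP (mprod)
open Pool.Agent.Helper82.CF (rep)

/-- `f` is computed on the numbers with `n` base `b` digits by a weighted automaton with `s` states,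
whose transitions may depend on the place: `f` of the number with the digits `w 0, .., w (n - 1)` is
the product of the `s × s` matrices `M i (w i)` between two vectors. -/
def Aut {K : Type} [Field K] (b n s : ℕ) (f : ℕ → K) : Prop :=
  ∃ (M : Fin n → Fin b → Matrix (Fin s) (Fin s) K) (u v : Fin s → K), ∀ w : Fin n → Fin b,
    f (value w) = u ⬝ᵥ (List.ofFn fun i => M i (w i)).prod.mulVec v

/-- the same for functions of two variables, with a matrix for each pair of digits -/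
def Aut2 {K : Type} [Field K] (b n s : ℕ) (f : ℕ → ℕ → K) : Prop :=
  ∃ (M : Fin n → Fin b → Fin b → Matrix (Fin s) (Fin s) K) (u v : Fin s → K),
    ∀ w w' : Fin n → Fin b, f (value w) (value w') =
      u ⬝ᵥ (List.ofFn fun i => M i (w i) (w' i)).prod.mulVec v

/-- `f` is a `b`-regular sequence (Allouche and Shallit): one weighted automaton computes all values
of `f`, its transitions do not depend on the place -/
def IsRegular {K : Type} [Field K] (b : ℕ) (f : ℕ → K) : Prop :=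
  ∃ (s : ℕ) (M : Fin b → Matrix (Fin s) (Fin s) K) (u v : Fin s → K),
    ∀ (n : ℕ) (w : Fin n → Fin b),
      f (value w) = u ⬝ᵥ (List.ofFn fun i => M (w i)).prod.mulVec v

/-- the same for functions of two variables -/
def IsRegular2 {K : Type} [Field K] (b : ℕ) (f : ℕ → ℕ → K) : Prop :=
  ∃ (s : ℕ) (M : Fin b → Fin b → Matrix (Fin s) (Fin s) K) (u v : Fin s → K),
    ∀ (n : ℕ) (w w' : Fin n → Fin b), f (value w) (value w') =
      u ⬝ᵥ (List.ofFn fun i => M (w i) (w' i)).prod.mulVec v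

theorem prod_eq {K : Type} [Field K] {b s : ℕ} (M : Fin b → Matrix (Fin s) (Fin s) K) (n : ℕ)
    (w : Fin n → Fin b) :
    (List.ofFn fun i => M (w i)).prod = mprod (fun _ => M) n w := by
  induction n with
  | zero => simp [mprod]
  | succ n ih =>
    rw [List.ofFn_succ', List.concat_eq_append, List.prod_append, List.prod_singleton, mprod,
      ih (fun i => w i.castSucc)]

theorem ncard_le_pairs {K : Type} [Field K] {A : Set ℕ} {f : ℕ → ℕ → K}
    (hA : ∀ n a, f n a ≠ 0 → a ≤ n ∧ a ∈ A ∧ n - a ∈ A) (x : ℕ) :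
    {n | n < x ∧ ∃ a, f n a ≠ 0}.ncard ≤ {p : ℕ × ℕ | p.1 < x ∧ f p.1 p.2 ≠ 0}.ncard := by
  have h1 : {n | n < x ∧ ∃ a, f n a ≠ 0} =
      Prod.fst '' {p : ℕ × ℕ | p.1 < x ∧ f p.1 p.2 ≠ 0} := by
    ext n
    constructor
    · rintro ⟨h1, a, h2⟩
      exact ⟨(n, a), ⟨h1, h2⟩, rfl⟩
    · rintro ⟨⟨n', a⟩, ⟨h1, h2⟩, rfl⟩
      exact ⟨h1, a, h2⟩
  rw [h1]
  refine Set.ncard_image_le ?_
  refine ((Finset.range x ×ˢ Finset.range x).finite_toSet).subset ?_
  rintro ⟨n, a⟩ ⟨h2, h3⟩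
  obtain ⟨h4, -⟩ := hA n a h3
  simp only at h2
  rw [Finset.mem_coe, Finset.mem_product, Finset.mem_range, Finset.mem_range]
  exact ⟨h2, by simp only; omega⟩


/-- `rep A m` is the number of ordered pairs `(a, a') ∈ A × A` with `a + a' = m`; `value w` is the
number with the base `b` digits `w 0, w 1, ...`.

(1) Let `r_A ≤ g` and `d > 0`. If an automaton with `s` states computes on the numbers below
`x = b ^ n` a function `f (c, a)` which is not zero only at representations `c = a + a'` with `a`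
and `a'` in `A`, for at least `x ^ d` of the `c` below `x`, then `s ≥ x ^ k`, for some
`k = k (b, g, d) > 0` and all large `n`; the same for functions `f a` which are not zero only at
elements of `A`.
(2) For `d < 1 / 2` and `e > 0` automata with at most `x ^ e` states select from the numbers below
`x = 2 ^ n` sets of at least `x ^ d` numbers with bounded representation function.
(3) If the function is `b`-regular, `r_A(m) ≥ m ^ e` for arbitrarily large `m`, for some `e > 0`. -/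
theorem result :
    (∀ (b g : ℕ) (d : ℝ), 2 ≤ b → 0 < d → ∃ k : ℝ, 0 < k ∧ ∃ n₀ : ℕ, ∀ n ≥ n₀,
      ∀ (K : Type) [Field K] (A : Set ℕ) (s : ℕ), (∀ m, rep A m ≤ g) →
      (∀ f : ℕ → ℕ → K, Aut2 b n s f →
        (∀ c < b ^ n, ∀ a, f c a ≠ 0 → a ∈ A ∧ ∃ a' ∈ A, a + a' = c) →
        (b : ℝ) ^ (d * n) ≤ {c | c < b ^ n ∧ ∃ a, f c a ≠ 0}.ncard → (b : ℝ) ^ (k * n) ≤ s) ∧
      ∀ f : ℕ → K, Aut b n s f → (∀ a < b ^ n, f a ≠ 0 → a ∈ A) →
        (b : ℝ) ^ (d * n) ≤ {a | a < b ^ n ∧ f a ≠ 0}.ncard → (b : ℝ) ^ (k * n) ≤ s) ∧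
    (∀ d e : ℝ, d < 1 / 2 → 0 < e → ∃ g n₀ : ℕ, ∀ n ≥ n₀,
      ∃ (K : Type) (_ : Field K) (s : ℕ) (f : ℕ → K), Aut 2 n s f ∧ (s : ℝ) ≤ 2 ^ (e * n) ∧
        (2 : ℝ) ^ (d * n) ≤ {a | a < 2 ^ n ∧ f a ≠ 0}.ncard ∧
        ∀ m, rep {a | a < 2 ^ n ∧ f a ≠ 0} m ≤ g) ∧
    ∀ (K : Type) [Field K] (A : Set ℕ) (b : ℕ), 2 ≤ b →
      (∀ f : ℕ → ℕ → K, IsRegular2 b f →
        (∀ c a, f c a ≠ 0 → a ∈ A ∧ ∃ a' ∈ A, a + a' = c) → ∀ d : ℝ, 0 < d →
        (∀ X : ℕ, ∃ x ≥ X, (x : ℝ) ^ d ≤ {c | c < x ∧ ∃ a, f c a ≠ 0}.ncard) →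
        ∃ e : ℝ, 0 < e ∧ ∀ X : ℕ, ∃ m ≥ X, (m : ℝ) ^ e ≤ rep A m) ∧
      ∀ f : ℕ → K, IsRegular b f → (∀ a, f a ≠ 0 → a ∈ A) → ∀ d : ℝ, 0 < d →
        (∀ X : ℕ, ∃ x ≥ X, (x : ℝ) ^ d ≤ {a | a < x ∧ f a ≠ 0}.ncard) →
        ∃ e : ℝ, 0 < e ∧ ∀ X : ℕ, ∃ m ≥ X, (m : ℝ) ^ e ≤ rep A m := by
  have hlb : ∀ b : ℕ, 2 ≤ b → 0 < Real.log b := fun b hb => Real.log_pos (by
    have : 1 < b := by omega
    exact_mod_cast this)
  refine ⟨?_, ?_, ?_⟩
  · intro b g d hb hd
    obtain ⟨c, hc, n₀, h⟩ := Helper84.MP.aut2_growth hb g hd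
    obtain ⟨c', hc', n₀', h'⟩ := Helper84.MP.aut_growth hb g hd
    have hb1 : (1 : ℝ) ≤ b := by
      have : 1 ≤ b := by omega
      exact_mod_cast this
    refine ⟨min c c', lt_min hc hc', max n₀ n₀', ?_⟩
    intro n hn K _ A s hr
    refine ⟨fun f h1 h2 h3 => ?_, fun f h1 h2 h3 => ?_⟩
    · refine le_trans (Real.rpow_le_rpow_of_exponent_le hb1 ?_)
        (h n (le_trans (le_max_left _ _) hn) K A s f hr h1 h2 h3)
      exact mul_le_mul_of_nonneg_right (min_le_left _ _) (Nat.cast_nonneg n)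
    · refine le_trans (Real.rpow_le_rpow_of_exponent_le hb1 ?_)
        (h' n (le_trans (le_max_right _ _) hn) K A s f hr h1 h2 h3)
      exact mul_le_mul_of_nonneg_right (min_le_right _ _) (Nat.cast_nonneg n)
  · intro d e hd he
    obtain ⟨g, n₀, h⟩ := Helper1.MP.OneFun.sharp_one d hd e he
    refine ⟨g, n₀, fun n hn => ?_⟩
    obtain ⟨K, hK, s, f, h1, h2, h3, h4⟩ := h n hn
    classical
    obtain ⟨M, u, v, hM⟩ := Helper12.MP.aut_of_crk f h1
    set F : ℕ → K := fun a => if h : ∃ w : Fin n → Fin 2, value w = a then f h.choose else 0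
      with hF
    have hFw : ∀ w : Fin n → Fin 2, F (value w) = f w := by
      intro w
      have h : ∃ w' : Fin n → Fin 2, value w' = value w := ⟨w, rfl⟩
      rw [hF]
      simp only
      rw [dif_pos h]
      exact congrArg f (Helper84.TN.value_injective h.choose_spec)
    have hset : {a | a < 2 ^ n ∧ F a ≠ 0} = {a | ∃ w, f w ≠ 0 ∧ value w = a} := by
      ext a
      constructor
      · rintro ⟨h5, h6⟩
        obtain ⟨w, rfl⟩ := Helper12.MP.exists_word (b := 2) (n := n) h5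
        exact ⟨w, by rwa [hFw] at h6, rfl⟩
      · rintro ⟨w, h5, rfl⟩
        exact ⟨Helper12.MP.value_lt w, by rwa [hFw]⟩
    refine ⟨K, hK, s, F, ⟨M, u, v, fun w => by rw [hFw, hM]⟩, h2, ?_, fun m => ?_⟩
    · refine h3.trans ?_
      rw [hset]
      have e1 : {a | ∃ w, f w ≠ 0 ∧ value w = a} = value '' {w | f w ≠ 0} := by
        ext a
        simp only [Set.mem_ofPred_eq, Set.mem_image]
      rw [e1, Set.ncard_image_of_injective _ Helper84.TN.value_injective]
    · rw [hset]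
      exact h4 m
  · intro K _ A b hb
    refine ⟨?_, ?_⟩
    · rintro f ⟨s, M, u, v, hf⟩ hA d hd hbig
      have hf' : Helper1.MP.IsRegular2 b s f := ⟨M, u, v, hf⟩
      have hA' : ∀ c a, f c a ≠ 0 → a ≤ c ∧ a ∈ A ∧ c - a ∈ A := by
        intro c a h
        obtain ⟨h1, a', h2, h3⟩ := hA c a h
        have e : c - a = a' := by omega
        rw [e]
        exact ⟨by omega, h1, h2⟩
      have := hlb b hb
      refine ⟨_, by positivity, Helper1.MP.regular_choice hb f hf' hA' hd fun X => ?_⟩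
      obtain ⟨x, hx, h⟩ := hbig X
      exact ⟨x, hx, h.trans (by exact_mod_cast ncard_le_pairs hA' x)⟩
    · rintro f ⟨s, M, u, v, hf⟩ hA d hd hbig
      have hf' : Helper12.MP.IsRegular b s f := ⟨M, u, v, fun n w => by rw [hf, prod_eq]⟩
      have := hlb b hb
      exact ⟨_, by positivity, Helper12.MP.regular_explicit hb f hf' hA hd hbig⟩

end Pool.Agent.Helper84.MP.V7
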